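import Pool.Agent.R825.FineBaire

/-!
# The closed Haar-null set `∏ C_n^*` is not a countable union of Borel null-finite sets

The proof (in `Pool.Agent.R825.FineBaire`) uses a finer translation invariant Baire topology on the
product, in which `∏ C_n^*` is open, and shows that null-finite sets with the Baire property in this
topology are meager in it.
-/

namespace Pool.Agent.Results.MP_9624c8_gt.NotCovered

open Set Filter Topology Pool.Agent.R825.FineBaire

/-- The group `X = ∏_{n ≥ 2} C_n`, where `C_n` is the group of `n`-th roots of unity in `ℂ`. -/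
abbrev X : Type := ∀ n : ℕ, rootsOfUnity (n + 2) ℂ

/-- The closed set `A = ∏_{n ≥ 2} C_n^*`. -/
def A : Set X := {x | ∀ n, x n ≠ 1}

/-- **Negative answer to Q1.**  `A` is not covered by countably many Borel null-finite subsets of
`X`; in particular it is not a countable union of Borel null-finite sets. -/
theorem result :
    ¬ ∃ B : ℕ → Set X, (∀ k, @MeasurableSet X (borel X) (B k) ∧ NullFinite (B k)) ∧
        A ⊆ ⋃ k, B k := by
  have hcard : ∀ n : ℕ, Nat.card (rootsOfUnity (n + 2) ℂ) = n + 2 := by
    intro n
    exact Complex.card_rootsOfUnity (n + 2)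
  have hnt : ∀ n : ℕ, Nontrivial (rootsOfUnity (n + 2) ℂ) := by
    intro n
    rw [← Finite.one_lt_card_iff_nontrivial, hcard]
    omega
  refine nonidentity_not_covered (G := fun n => rootsOfUnity (n + 2) ℂ) ?_
  refine tendsto_atTop_mono (fun n => ?_) tendsto_id
  rw [hcard]
  show n ≤ n + 2
  omega

/-- The factors of `X` are discrete. -/
example (n : ℕ) : DiscreteTopology (rootsOfUnity (n + 2) ℂ) := inferInstance

end Pool.Agent.Results.MP_9624c8_gt.NotCovered
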